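import Mathlib
import Pool.Agent.Helper94.DSepDefs
import Pool.Agent.Helper94.DSepMain

namespace Pool.Agent.Results.MP_ffd784_gt.CHSquareDSeparable

open Pool.Agent.Helper94

/-- Under the continuum hypothesis there is a regular Hausdorff hereditarily Lindelöf
non-separable space whose square is `D`-separable. -/
theorem result (hCH : Cardinal.continuum.{0} = Cardinal.aleph 1) :
    ∃ (X : Type) (_ : TopologicalSpace X),
      T3Space X ∧ HereditarilyLindelofSpace X ∧ ¬ TopologicalSpace.SeparableSpace X ∧
        DSeparable (X × X) :=
  main_CH hCH

end Pool.Agent.Results.MP_ffd784_gt.CHSquareDSeparable
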